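import Mathlib

set_option autoImplicit false

namespace Pool.Agent.Results.MP_76a7f5_an.Two
open Set Real intervalIntegral

noncomputable def g (x : ℝ) : ℝ := if x = 0 then 2 / 3 else x⁻¹ * log ((3 + x) / (3 - x))

noncomputable def F {n : ℕ} (x : Fin n → ℝ) : ℝ :=
  1 / n * ∑ i, ∑ j, 1 / (3 - x i * x j) - ∑ i, g (x i)

theorem pos {p y : ℝ} (h : p ≤ 1) (m : y ∈ uIcc (0 : ℝ) 1) : 0 < 9 - p * y ^ 2 := by
  rw [uIcc_of_le zero_le_one] at m
  nlinarith [sq_nonneg y, pow_le_one₀ m.1 m.2 (n := 2)]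

theorem ii {p : ℝ} (h : p ≤ 1) :
    IntervalIntegrable (fun y : ℝ => 6 / (9 - p * y ^ 2)) MeasureTheory.volume 0 1 :=
  (continuousOn_const.div (by fun_prop) fun y m => (pos h m).ne').intervalIntegrable

theorem g_eq {x : ℝ} (h : x ∈ Icc (-1 : ℝ) 1) : g x = ∫ y in (0 : ℝ)..1, 6 / (9 - x ^ 2 * y ^ 2) := by
  have x2 : x ^ 2 ≤ 1 := by nlinarith [h.1, h.2]
  unfold g
  split_ifs with e
  · simp [e]; norm_num
  rw [integral_eq_sub_of_hasDerivAt (f := fun y => x⁻¹ * (log (3 + x * y) - log (3 - x * y))) ?_ (ii x2),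
    log_div (by linarith [h.1]) (by linarith [h.2])]
  · simp
  intro y m
  have p := pos x2 m
  rw [uIcc_of_le zero_le_one] at m
  have a : 3 + x * y ≠ 0 := by nlinarith [h.1, h.2, m.1, m.2]
  have b : 3 - x * y ≠ 0 := by nlinarith [h.1, h.2, m.1, m.2]
  refine ((((((hasDerivAt_id' y).const_mul x).const_add 3).log a).fun_sub
    ((((hasDerivAt_id' y).const_mul x).const_sub 3).log b)).const_mul x⁻¹).congr_deriv ?_
  rw [show 9 - x ^ 2 * y ^ 2 = (3 + x * y) * (3 - x * y) by ring]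
  field_simp; ring

theorem mid {p q t : ℝ} (p0 : 0 ≤ p) (p1 : p ≤ 1) (q0 : 0 ≤ q) (q1 : q ≤ 1) (t0 : 0 ≤ t) (t1 : t ≤ 1) :
    6 / (9 - p * t) + 6 / (9 - q * t) - 2 * (6 / (9 - (p + q) / 2 * t)) ≤
      1 / 2 * (1 / (3 - p) + 1 / (3 - q)) - 1 / (3 - (p + q) / 2) := by
  have k : ∀ s, 0 ≤ s → s ≤ 1 → 0 < 3 - s ∧ 3 * (3 - s) ≤ 9 - s * t := fun s a b =>
    ⟨by linarith, by nlinarith⟩
  obtain ⟨a1, a2⟩ := k p p0 p1
  obtain ⟨b1, b2⟩ := k q q0 q1
  obtain ⟨c1, c2⟩ := k ((p + q) / 2) (by linarith) (by linarith)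
  have a3 : 0 < 9 - p * t := by linarith
  have b3 : 0 < 9 - q * t := by linarith
  have c3 : 0 < 9 - (p + q) / 2 * t := by linarith
  have e : ∀ A B C : ℝ, 0 < A → 0 < B → 2 * C = A + B →
      1 / A + 1 / B - 2 * (1 / C) = (A - B) ^ 2 / (2 * (A * B * C)) := fun A B C a b c => by
    rw [show C = (A + B) / 2 by linarith]; field_simp; ring
  have e1 := e _ _ _ a3 b3 (show 2 * (9 - (p + q) / 2 * t) = _ by ring)
  have e2 := e _ _ _ a1 b1 (show 2 * (3 - (p + q) / 2) = _ by ring)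
  have l : (9 - p * t - (9 - q * t)) ^ 2 / (2 * ((9 - p * t) * (9 - q * t) * (9 - (p + q) / 2 * t))) ≤
      (3 - p - (3 - q)) ^ 2 / (2 * (3 * (3 - p) * (3 * (3 - q)) * (3 * (3 - (p + q) / 2)))) :=
    div_le_div₀ (sq_nonneg _) (by nlinarith [mul_nonneg (sq_nonneg (p - q)) (show 0 ≤ 1 - t ^ 2 by
      nlinarith)]) (by positivity) (by gcongr)
  have z : 0 ≤ (3 - p - (3 - q)) ^ 2 / (2 * ((3 - p) * (3 - q) * (3 - (p + q) / 2))) := by positivity
  rw [show (3 - p - (3 - q)) ^ 2 / (2 * (3 * (3 - p) * (3 * (3 - q)) * (3 * (3 - (p + q) / 2)))) =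
    1 / 27 * ((3 - p - (3 - q)) ^ 2 / (2 * ((3 - p) * (3 - q) * (3 - (p + q) / 2)))) by field_simp; ring,
    ← e1] at l
  simp only [div_eq_mul_inv] at *
  linarith

theorem cont : ContinuousOn g (Icc (-1) 1) := by
  have : Continuous fun a : ℝ => ∫ y in (0 : ℝ)..1, 6 / (9 - min (a ^ 2) 1 * min (y ^ 2) 1) :=
    continuous_parametric_intervalIntegral_of_continuous' (continuous_const.div (by fun_prop) fun z => by
      have := mul_le_one₀ (min_le_right (z.1 ^ 2) 1) (le_min (sq_nonneg z.2) zero_le_one)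
        (min_le_right (z.2 ^ 2) 1)
      exact (by linarith : 0 < 9 - min (z.1 ^ 2) 1 * min (z.2 ^ 2) 1).ne') 0 1
  refine this.continuousOn.congr fun a h => (g_eq h).trans (integral_congr fun y m => ?_)
  rw [uIcc_of_le zero_le_one] at m
  rw [min_eq_left (by nlinarith [h.1, h.2]), min_eq_left (pow_le_one₀ m.1 m.2)]

theorem result : ∃ a ∈ Icc (-1 : ℝ) 1, ∀ x : Fin 2 → ℝ, (∀ i, x i ∈ Icc (-1 : ℝ) 1) →
    F ![a, -a] ≤ F x := by
  have s : ∀ a ∈ Icc (-1 : ℝ) 1, F ![a, -a] = 1 / (3 - a ^ 2) + 1 / (3 + a ^ 2) - 2 * g a := fun a h => by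
    have : g (-a) = g a := by rw [g_eq h, g_eq ⟨by linarith [h.2], by linarith [h.1]⟩, neg_sq]
    simp [F, Fin.sum_univ_two, this, sq]; ring
  obtain ⟨a, ha, m⟩ := isCompact_Icc.exists_isMinOn (f := fun a : ℝ => 1 / (3 - a ^ 2) + 1 / (3 + a ^ 2) -
    2 * g a) (nonempty_Icc.2 (by norm_num : (-1 : ℝ) ≤ 1)) (((continuousOn_const.div (by fun_prop)
      fun a h => by nlinarith [h.1, h.2]).add (continuousOn_const.div (by fun_prop) fun a _ => by
        positivity)).sub (continuousOn_const.mul cont))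
  refine ⟨a, ha, fun x h => ?_⟩
  have p1 : x 0 ^ 2 ≤ 1 := by nlinarith [(h 0).1, (h 0).2]
  have q1 : x 1 ^ 2 ≤ 1 := by nlinarith [(h 1).1, (h 1).2]
  have b2 := sq_sqrt (show 0 ≤ (x 0 ^ 2 + x 1 ^ 2) / 2 by positivity)
  have hb : √((x 0 ^ 2 + x 1 ^ 2) / 2) ∈ Icc (-1 : ℝ) 1 :=
    ⟨by linarith [sqrt_nonneg ((x 0 ^ 2 + x 1 ^ 2) / 2)], sqrt_le_one.2 (by linarith)⟩
  have k := m hb
  simp only [mem_ofPred_eq, g_eq hb, b2] at k
  have i := integral_mono_on zero_le_one (((ii p1).add (ii q1)).sub ((ii (p := (x 0 ^ 2 + x 1 ^ 2) / 2)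
    (by linarith)).const_mul 2)) intervalIntegrable_const fun y m =>
      mid (sq_nonneg _) p1 (sq_nonneg _) q1 (sq_nonneg y) (pow_le_one₀ m.1 m.2)
  rw [integral_sub ((ii p1).add (ii q1)) ((ii (by linarith)).const_mul 2), integral_add (ii p1) (ii q1),
    integral_const_mul, ← g_eq (h 0), ← g_eq (h 1), integral_const, sub_zero, one_smul] at i
  have j : 1 / (3 + (x 0 ^ 2 + x 1 ^ 2) / 2) ≤ 1 / (3 - x 0 * x 1) := one_div_le_one_div_of_le
    (by nlinarith [sq_nonneg (x 0 - x 1)]) (by nlinarith [sq_nonneg (x 0 + x 1)])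
  rw [s a ha, F]
  simp only [Fin.sum_univ_two, ← sq, mul_comm (x 1) (x 0), Nat.cast_ofNat]
  linarith

end Pool.Agent.Results.MP_76a7f5_an.Two
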